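import Mathlib
import Pool.Agent.R567.IETF.Form

set_option autoImplicit false

/-! # MP_83934b: measurable realization of interval exchanges with flips

The surjection `p : Ĝ → G = Ĝ / N` splits over the group of interval exchanges with flips. -/

namespace Pool.Agent.Results.MP_83934b_an.Splitting

open Filter Topology MeasureTheory Set Pool.Agent.R567.IETF

/-- The group of interval exchanges with flips: piecewise isometric permutations of the circle
modulo the finitely supported permutations. -/
abbrev IETb : Type := PIso ⧸ (Sfin.subgroupOf PIso)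

/-- The group `G = Ĝ / N`. -/
abbrev G : Type := Ghat ⧸ N

/-- The quotient map `p : Ĝ → G`. -/
def p : Ghat →* G := QuotientGroup.mk' N

theorem fin_le_comap :
    Sfin.subgroupOf PIso ≤ N.comap (Subgroup.inclusion PIso_le_Ghat) := by
  intro f hf
  have h1 : {x | (f : Equiv.Perm S) x ≠ x}.Finite := hf
  have h2 : volume {x | (f : Equiv.Perm S) x ≠ x} = 0 := finite_measure_zero h1
  exact h2

/-- The homomorphism from the group of interval exchanges with flips to `G`, which sends the class
of a piecewise isometric permutation `f` to the class of `f`. -/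
def toG : IETb →* G :=
  QuotientGroup.map (Sfin.subgroupOf PIso) N (Subgroup.inclusion PIso_le_Ghat) fin_le_comap

theorem toG_mk (f : PIso) :
    toG (QuotientGroup.mk f) = p ⟨(f : Equiv.Perm S), PIso_le_Ghat f.2⟩ := rfl

/-- The homomorphism `toG` identifies the group of interval exchanges with flips with a subgroup
of `G`. -/
theorem toG_injective : Function.Injective toG := by
  rw [injective_iff_map_eq_one]
  intro a ha
  induction a using QuotientGroup.induction_on with
  | H f =>
    rw [toG_mk] at ha
    have h1 : (⟨(f : Equiv.Perm S), PIso_le_Ghat f.2⟩ : Ghat) ∈ N :=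
      (QuotientGroup.eq_one_iff _).1 ha
    have h2 : ∀ᵐ x, (f : Equiv.Perm S) x = x := h1
    have h3 : Dense {x | (f : Equiv.Perm S) x = x} := Measure.dense_of_ae h2
    rw [QuotientGroup.eq_one_iff]
    have h4 := finite_of_dense f.2 PIso.one_mem h3 (fun x hx => hx)
    exact h4

/-- The homomorphism to the permutations of the circle given by the action on germs. -/
noncomputable def lift0 (θ : Y ≃ S) : PIso →* Equiv.Perm S :=
  (Equiv.permCongrHom θ).toMonoidHom.comp act

theorem lift0_apply (θ : Y ≃ S) (g : PIso) (x : S) : lift0 θ g x = θ (act g (θ.symm x)) := rfl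

theorem lift0_ae {C : Set S} {θ : Y ≃ S} (hC : volume C = 0) (hθ : ∀ x ∉ C, θ (germ x) = x)
    (g : PIso) : ∀ᵐ x, lift0 θ g x = (g : Equiv.Perm S) x := by
  have h1 : volume (C ∪ ((g : Equiv.Perm S) ⁻¹' C ∪ {x | ¬ IsoAt (g : Equiv.Perm S) x})) = 0 := by
    apply measure_union_null hC
    apply measure_union_null (Ghat.null (PIso_le_Ghat g.2) hC)
    exact finite_measure_zero g.2
  refine measure_mono_null ?_ h1
  intro x hx
  by_contra hn
  simp only [mem_union, mem_preimage, mem_ofPred_eq, not_or, not_not] at hn
  obtain ⟨hn1, hn2, hn3⟩ := hn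
  apply hx
  change lift0 θ g x = (g : Equiv.Perm S) x
  have h2 : θ.symm x = germ x := by
    rw [Equiv.symm_apply_eq]
    exact (hθ x hn1).symm
  rw [lift0_apply, h2, act_germ hn3, hθ _ hn2]

/-- The surjection `p : Ĝ → G` splits over the group of interval exchanges with flips. -/
theorem result : ∃ σ : IETb →* Ghat, ∀ g : IETb, p (σ g) = toG g := by
  obtain ⟨C, θ, hC, hθ⟩ := exists_theta
  let σ1 : PIso →* Ghat := (lift0 θ).codRestrict Ghat
    (fun g => mem_Ghat_of_ae (PIso_le_Ghat g.2) (lift0_ae hC hθ g))
  have hσ1 : Sfin.subgroupOf PIso ≤ σ1.ker := by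
    intro f hf
    rw [MonoidHom.mem_ker]
    apply Subtype.ext
    change (Equiv.permCongrHom θ) (act f) = 1
    rw [act_fin hf, map_one]
  refine ⟨QuotientGroup.lift (Sfin.subgroupOf PIso) σ1 hσ1, ?_⟩
  intro a
  induction a using QuotientGroup.induction_on with
  | H f =>
    rw [toG_mk]
    change p (σ1 f) = p ⟨(f : Equiv.Perm S), PIso_le_Ghat f.2⟩
    apply QuotientGroup.eq.2
    change ∀ᵐ x, (((σ1 f)⁻¹ * ⟨(f : Equiv.Perm S), PIso_le_Ghat f.2⟩ : Ghat) : Equiv.Perm S) x = x
    filter_upwards [lift0_ae hC hθ f] with x hx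
    change (lift0 θ f)⁻¹ ((f : Equiv.Perm S) x) = x
    rw [Equiv.Perm.inv_eq_iff_eq]
    exact hx.symm

end Pool.Agent.Results.MP_83934b_an.Splitting
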